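import Pool.Agent.W79.BP.Defs

/-!
# Project BP, part B1: two long cycles are rarely in the same orbit
-/

set_option autoImplicit false

namespace Pool.Agent.W247.BP

open Pool.Agent.W79.BP
open scoped Classical

variable {n : ℕ}

/-- the automorphism group -/
def AS (β : SimpleGraph (Fin n)) : Subgroup (Equiv.Perm (Fin n)) where
  carrier := {τ | ∀ u v, β.Adj (τ u) (τ v) ↔ β.Adj u v}
  mul_mem' := by
    intro a b ha hb u v
    rw [Equiv.Perm.mul_apply, Equiv.Perm.mul_apply]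
    exact (ha _ _).trans (hb _ _)
  one_mem' := by
    intro u v
    exact Iff.rfl
  inv_mem' := by
    intro a ha u v
    have h := ha (a.symm u) (a.symm v)
    rw [Equiv.apply_symm_apply, Equiv.apply_symm_apply] at h
    exact h.symm

lemma comap_iff (β : SimpleGraph (Fin n)) (τ : Equiv.Perm (Fin n)) :
    SimpleGraph.comap (⇑τ) β = β ↔ τ ∈ AS β := by
  constructor
  · intro h u v
    have : (SimpleGraph.comap (⇑τ) β).Adj u v ↔ β.Adj u v := by rw [h]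
    exact this
  · intro h
    ext u v
    exact h u v

lemma mem_Au (β : SimpleGraph (Fin n)) (τ : Equiv.Perm (Fin n)) : τ ∈ Au β ↔ τ ∈ AS β := by
  unfold Au
  rw [Finset.mem_filter, comap_iff]
  simp

lemma mem_Fx (β : SimpleGraph (Fin n)) (σ : Equiv.Perm (Fin n)) : β ∈ Fx σ ↔ σ ∈ AS β := by
  unfold Fx
  rw [Finset.mem_filter, comap_iff]
  simp

lemma mem_cy (σ : Equiv.Perm (Fin n)) (x y : Fin n) : y ∈ cy σ x ↔ σ.SameCycle x y := by
  unfold cy
  simp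

lemma isCycleOn_cy (σ : Equiv.Perm (Fin n)) (x : Fin n) : σ.IsCycleOn (cy σ x : Set (Fin n)) := by
  refine ⟨⟨?_, σ.injective.injOn, ?_⟩, ?_⟩
  · intro y hy
    rw [Finset.mem_coe, mem_cy] at hy ⊢
    exact Equiv.Perm.sameCycle_apply_right.2 hy
  · intro y hy
    rw [Finset.mem_coe, mem_cy] at hy
    refine ⟨σ⁻¹ y, ?_, by simp⟩
    rw [Finset.mem_coe, mem_cy]
    rw [← Equiv.Perm.sameCycle_apply_right]
    simpa using hy
  · intro y hy z hz
    rw [Finset.mem_coe, mem_cy] at hy hz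
    exact hy.symm.trans hz

lemma dvd_of_eq (σ : Equiv.Perm (Fin n)) (z : Fin n) (a b : ℤ) (h : (σ ^ a) z = (σ ^ b) z) :
    ((cy σ z).card : ℤ) ∣ a - b := by
  have hz : z ∈ cy σ z := by
    rw [mem_cy]
  rw [← (isCycleOn_cy σ z).zpow_apply_eq hz]
  have : σ ^ (a - b) = σ ^ (-b) * σ ^ a := by
    rw [← zpow_add]
    congr 1
    ring
  rw [this, Equiv.Perm.mul_apply, h, ← Equiv.Perm.mul_apply, ← zpow_add]
  simp

lemma zpow_mem_cy (σ : Equiv.Perm (Fin n)) (z : Fin n) (a : ℤ) : (σ ^ a) z ∈ cy σ z := by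
  rw [mem_cy]
  exact ⟨a, rfl⟩

/-- half of the automorphisms move a point of the shorter cycle out of the cycle -/
lemma half (β : SimpleGraph (Fin n)) (σ : Equiv.Perm (Fin n)) (hσ : σ ∈ AS β) (x y : Fin n)
    (hxy : ¬ σ.SameCycle x y) (hc : (cy σ x).card ≤ (cy σ y).card) (τ : Equiv.Perm (Fin n)) (hτ : τ ∈ AS β)
    (hτx : τ x = y) (z : Fin n) :
    (Au β).card ≤ 2 * ((Au β).filter (fun h => h z ∉ cy σ x)).card := by
  have hemb : Nonempty ({w // w ∈ cy σ x} ↪ {w // w ∈ cy σ y}) := by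
    apply Function.Embedding.nonempty_of_card_le
    simpa using hc
  obtain ⟨emb⟩ := hemb
  have hg : ∀ w : {w // w ∈ cy σ x}, ∃ g ∈ AS β, g w.1 = (emb w).1 := by
    intro w
    obtain ⟨i, hi⟩ := (mem_cy _ _ _).1 w.2
    obtain ⟨j, hj⟩ := (mem_cy _ _ _).1 (emb w).2
    refine ⟨σ ^ j * τ * σ ^ (-i), ?_, ?_⟩
    · exact (AS β).mul_mem ((AS β).mul_mem ((AS β).zpow_mem hσ j) hτ) ((AS β).zpow_mem hσ (-i))
    · rw [← hj, ← hi, ← hτx]
      simp [Equiv.Perm.mul_apply]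
  choose g hg1 hg2 using hg
  have h1 : ((Au β).filter (fun h => h z ∈ cy σ x)).card ≤ ((Au β).filter (fun h => h z ∉ cy σ x)).card := by
    apply Finset.card_le_card_of_injOn (fun h => if hw : h z ∈ cy σ x then g ⟨h z, hw⟩ * h else h)
    · intro h hh
      rw [Finset.mem_coe, Finset.mem_filter] at hh
      rw [Finset.mem_coe, Finset.mem_filter]
      simp only [dif_pos hh.2]
      refine ⟨?_, ?_⟩
      · rw [mem_Au]
        exact (AS β).mul_mem (hg1 _) ((mem_Au _ _).1 hh.1)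
      · rw [Equiv.Perm.mul_apply, hg2 ⟨h z, hh.2⟩]
        intro hm
        have h2 := (emb ⟨h z, hh.2⟩).2
        rw [mem_cy] at h2 hm
        exact hxy (hm.trans h2.symm)
    · intro h1 hh1 h2 hh2 he
      rw [Finset.mem_coe, Finset.mem_filter] at hh1 hh2
      simp only [dif_pos hh1.2, dif_pos hh2.2] at he
      have e1 := congrArg (fun f : Equiv.Perm (Fin n) => f z) he
      simp only [Equiv.Perm.mul_apply] at e1
      rw [hg2 ⟨h1 z, hh1.2⟩, hg2 ⟨h2 z, hh2.2⟩] at e1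
      have e2 := emb.injective (Subtype.ext e1)
      rw [e2] at he
      exact mul_left_cancel he
  have h2 := Finset.card_filter_add_card_filter_not (s := Au β) (fun h => h z ∈ cy σ x)
  omega

/-- the good automorphism -/
lemma exists_h (β : SimpleGraph (Fin n)) (σ : Equiv.Perm (Fin n)) (hσ : σ ∈ AS β) (x y : Fin n)
    (hxy : ¬ σ.SameCycle x y) (hc : (cy σ x).card ≤ (cy σ y).card) (τ : Equiv.Perm (Fin n)) (hτ : τ ∈ AS β)
    (hτx : τ x = y) (K : ℕ) :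
    ∃ h ∈ Au β, K ≤ 2 * ((Finset.univ : Finset (Fin K)).filter (fun i : Fin K => h ((σ ^ (i : ℕ)) x) ∉ cy σ x)).card := by
  have hne : (Au β).Nonempty := ⟨1, by rw [mem_Au]; exact (AS β).one_mem⟩
  apply Finset.exists_le_of_sum_le hne
  rw [Finset.sum_const, smul_eq_mul, ← Finset.mul_sum]
  have h1 := Finset.sum_card_bipartiteAbove_eq_sum_card_bipartiteBelow (s := Au β)
    (t := (Finset.univ : Finset (Fin K))) (fun (h : Equiv.Perm (Fin n)) (i : Fin K) => h ((σ ^ (i : ℕ)) x) ∉ cy σ x)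
  unfold Finset.bipartiteAbove Finset.bipartiteBelow at h1
  rw [h1, Finset.mul_sum]
  have h2 : ∑ i : Fin K, (Au β).card ≤ ∑ i : Fin K,
      2 * ((Au β).filter (fun h => h ((σ ^ (i : ℕ)) x) ∉ cy σ x)).card :=
    Finset.sum_le_sum fun i _ => half β σ hσ x y hxy hc τ hτ hτx _
  rw [Finset.sum_const, Finset.card_univ, Fintype.card_fin, smul_eq_mul, mul_comm] at h2
  exact h2

/-- the index set of the equations -/
abbrev JJ (σ : Equiv.Perm (Fin n)) (K : ℕ) (D : Fin n × (Fin K → Fin n) × (Fin K → Fin n)) : Type :=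
  Fin K × {i : Fin K // D.2.1 i ∉ cy σ D.1}

/-- valid data -/
def Val (σ : Equiv.Perm (Fin n)) (K : ℕ) (D : Fin n × (Fin K → Fin n) × (Fin K → Fin n)) : Prop :=
  4 * K ^ 2 ≤ (cy σ D.1).card ∧ K ≤ 2 * Fintype.card {i : Fin K // D.2.1 i ∉ cy σ D.1} ∧
    ∀ j : JJ σ K D, D.2.2 j.1 ≠ D.2.1 j.2.1

lemma key (hE : S_EQ) (σ : Equiv.Perm (Fin n)) (K : ℕ) (hK : 1 ≤ K)
    (D : Fin n × (Fin K → Fin n) × (Fin K → Fin n)) (hD : Val σ K D) :
    ((Fx σ).filter (fun β => ∀ j : JJ σ K D,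
      β.Adj ((σ ^ (((j.1 : ℕ) + 1) * K)) D.1) ((σ ^ (j.2.1 : ℕ)) D.1) ↔ β.Adj (D.2.2 j.1) (D.2.1 j.2.1))).card *
      2 ^ (K * K / 8) ≤ (Fx σ).card := by
  obtain ⟨z, y, w⟩ := D
  obtain ⟨hl, hI, hne⟩ := hD
  simp only at hl hI hne ⊢
  have hKK : (1 : ℤ) ≤ K := by exact_mod_cast hK
  have hl' : (4 : ℤ) * K ^ 2 ≤ (cy σ z).card := by exact_mod_cast hl
  -- the differences
  have hd : ∀ j : JJ σ K (z, y, w), (1 : ℤ) ≤ ((j.1 : ℕ) + 1 : ℤ) * K - (j.2.1 : ℕ) ∧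
      ((j.1 : ℕ) + 1 : ℤ) * K - (j.2.1 : ℕ) ≤ K ^ 2 := by
    intro j
    have h1 : ((j.1 : ℕ) : ℤ) + 1 ≤ K := by
      have := j.1.2
      omega
    have h2 : ((j.2.1 : ℕ) : ℤ) + 1 ≤ K := by
      have := j.2.1.2
      omega
    have h3 : (0 : ℤ) ≤ ((j.1 : ℕ) : ℤ) := by positivity
    have h4 : (0 : ℤ) ≤ ((j.2.1 : ℕ) : ℤ) := by positivity
    constructor
    · nlinarith
    · nlinarith
  have h := hE n σ (JJ σ K (z, y, w))
    (fun j => ((σ ^ (((j.1 : ℕ) + 1) * K)) z, (σ ^ (j.2.1 : ℕ)) z)) (fun j => (w j.1, y j.2.1)) ?_ ?_ ?_ ?_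
  · refine le_trans ?_ h
    apply Nat.mul_le_mul_left
    apply Nat.pow_le_pow_right (by norm_num)
    have hc : Fintype.card (JJ σ K (z, y, w)) = K * Fintype.card {i : Fin K // y i ∉ cy σ z} := by
      rw [Fintype.card_prod, Fintype.card_fin]
    have h2 : K * K ≤ 2 * Fintype.card (JJ σ K (z, y, w)) := by
      rw [hc]
      calc K * K ≤ K * (2 * Fintype.card {i : Fin K // y i ∉ cy σ z}) := Nat.mul_le_mul_left _ hI
        _ = _ := by ring
    omega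
  · intro j he
    simp only at he
    rw [← zpow_natCast, ← zpow_natCast] at he
    have h1 := dvd_of_eq σ z _ _ he
    obtain ⟨h2, h3⟩ := hd j
    push_cast at h1
    have h4 := Int.le_of_dvd (by linarith) h1
    nlinarith
  · intro j
    exact hne j
  · intro i j hij hso
    obtain ⟨k, hk⟩ := hso
    simp only at hk
    obtain ⟨h2, h3⟩ := hd i
    obtain ⟨h4, h5⟩ := hd j
    have e : ∀ (a b : ℕ), (σ ^ k) ((σ ^ a) z) = (σ ^ b) z → ((cy σ z).card : ℤ) ∣ (k + a) - b := by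
      intro a b hab
      apply dvd_of_eq
      rw [zpow_add, Equiv.Perm.mul_apply, zpow_natCast, zpow_natCast]
      exact hab
    rcases hk with ⟨ha, hb⟩ | ⟨ha, hb⟩
    · have h6 := dvd_sub (e _ _ ha) (e _ _ hb)
      push_cast at h6
      have h7 : (k + ((i.1 : ℕ) + 1 : ℤ) * K - ((j.1 : ℕ) + 1 : ℤ) * K) - (k + ((i.2.1 : ℕ) : ℤ) - ((j.2.1 : ℕ) : ℤ)) =
          (((i.1 : ℕ) + 1 : ℤ) * K - (i.2.1 : ℕ)) - (((j.1 : ℕ) + 1 : ℤ) * K - (j.2.1 : ℕ)) := by ring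
      rw [h7] at h6
      have h8 : (((i.1 : ℕ) + 1 : ℤ) * K - (i.2.1 : ℕ)) - (((j.1 : ℕ) + 1 : ℤ) * K - (j.2.1 : ℕ)) = 0 := by
        apply Int.eq_zero_of_abs_lt_dvd h6
        rw [abs_lt]
        constructor <;> nlinarith
      apply hij
      have h9 : (i.1 : ℕ) = (j.1 : ℕ) ∧ (i.2.1 : ℕ) = (j.2.1 : ℕ) := by
        have a1 := i.2.1.2
        have a2 := j.2.1.2
        have h10 : ((i.1 : ℕ) + 1) * K + (j.2.1 : ℕ) = ((j.1 : ℕ) + 1) * K + (i.2.1 : ℕ) := by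
          have : (((i.1 : ℕ) + 1 : ℤ) * K + (j.2.1 : ℕ)) = ((j.1 : ℕ) + 1 : ℤ) * K + (i.2.1 : ℕ) := by linarith
          exact_mod_cast this
        have h11 : (i.1 : ℕ) = (j.1 : ℕ) := by
          rcases lt_trichotomy (i.1 : ℕ) (j.1 : ℕ) with hlt | heq | hgt
          · exfalso
            have : ((i.1 : ℕ) + 1 + 1) * K ≤ ((j.1 : ℕ) + 1) * K := Nat.mul_le_mul_right _ (by omega)
            rw [add_mul ((i.1 : ℕ) + 1) 1 K] at this
            omega
          · exact heq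
          · exfalso
            have : ((j.1 : ℕ) + 1 + 1) * K ≤ ((i.1 : ℕ) + 1) * K := Nat.mul_le_mul_right _ (by omega)
            rw [add_mul ((j.1 : ℕ) + 1) 1 K] at this
            omega
        refine ⟨h11, ?_⟩
        rw [h11] at h10
        omega
      exact Prod.ext (Fin.ext h9.1) (Subtype.ext (Fin.ext h9.2))
    · have h6 := dvd_sub (e _ _ ha) (e _ _ hb)
      push_cast at h6
      have h7 : (k + ((i.1 : ℕ) + 1 : ℤ) * K - ((j.2.1 : ℕ) : ℤ)) - (k + ((i.2.1 : ℕ) : ℤ) - ((j.1 : ℕ) + 1 : ℤ) * K) =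
          (((i.1 : ℕ) + 1 : ℤ) * K - (i.2.1 : ℕ)) + (((j.1 : ℕ) + 1 : ℤ) * K - (j.2.1 : ℕ)) := by ring
      rw [h7] at h6
      have h8 := Int.le_of_dvd (by linarith) h6
      nlinarith
  · intro j hso
    obtain ⟨k, hk⟩ := hso
    simp only at hk
    apply j.2.2
    rcases hk with ⟨_, hb⟩ | ⟨ha, _⟩
    · simp only
      rw [← hb, ← zpow_natCast, ← Equiv.Perm.mul_apply, ← zpow_add]
      exact zpow_mem_cy _ _ _
    · simp only
      rw [← ha, ← zpow_natCast, ← Equiv.Perm.mul_apply, ← zpow_add]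
      exact zpow_mem_cy _ _ _

lemma bad (σ : Equiv.Perm (Fin n)) (K : ℕ) (hK : 1 ≤ K) (β : SimpleGraph (Fin n)) (hβ : β ∈ Fx σ)
    (hb : ∃ x y, ¬ σ.SameCycle x y ∧ 4 * K ^ 2 ≤ (cy σ x).card ∧
      4 * K ^ 2 ≤ (cy σ y).card ∧ y ∈ ob β x) :
    ∃ D : Fin n × (Fin K → Fin n) × (Fin K → Fin n), Val σ K D ∧ ∀ j : JJ σ K D,
      (β.Adj ((σ ^ (((j.1 : ℕ) + 1) * K)) D.1) ((σ ^ (j.2.1 : ℕ)) D.1) ↔ β.Adj (D.2.2 j.1) (D.2.1 j.2.1)) := by
  have hσ := (mem_Fx _ _).1 hβ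
  -- without loss of generality the first cycle is shorter
  obtain ⟨x, y, hxy, hx, hc, τ, hτ, hτx⟩ : ∃ x y, ¬ σ.SameCycle x y ∧ 4 * K ^ 2 ≤ (cy σ x).card ∧
      (cy σ x).card ≤ (cy σ y).card ∧ ∃ τ ∈ AS β, τ x = y := by
    obtain ⟨x, y, hxy, hx, hy, ho⟩ := hb
    unfold ob at ho
    rw [Finset.mem_filter] at ho
    obtain ⟨_, τ, hτ, hτx⟩ := ho
    rw [mem_Au] at hτ
    rcases le_total (cy σ x).card (cy σ y).card with hc | hc
    · exact ⟨x, y, hxy, hx, hc, τ, hτ, hτx⟩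
    · refine ⟨y, x, fun h => hxy h.symm, hy, hc, τ⁻¹, (AS β).inv_mem hτ, ?_⟩
      rw [← hτx]
      simp
  obtain ⟨h, hh, hI⟩ := exists_h β σ hσ x y hxy hc τ hτ hτx K
  rw [mem_Au] at hh
  refine ⟨(x, fun i => h ((σ ^ (i : ℕ)) x), fun t => h ((σ ^ (((t : ℕ) + 1) * K)) x)), ⟨hx, ?_, ?_⟩, ?_⟩
  · rw [Fintype.card_subtype]
    exact hI
  · intro j he
    simp only at he
    have he' := h.injective he
    rw [← zpow_natCast, ← zpow_natCast] at he'
    have h1 := dvd_of_eq σ x _ _ he'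
    have hKK : (1 : ℤ) ≤ K := by exact_mod_cast hK
    have hl' : (4 : ℤ) * K ^ 2 ≤ (cy σ x).card := by exact_mod_cast hx
    have h2 : ((j.1 : ℕ) : ℤ) + 1 ≤ K := by
      have := j.1.2
      omega
    have h3 : ((j.2.1 : ℕ) : ℤ) + 1 ≤ K := by
      have := j.2.1.2
      omega
    have h4 : (0 : ℤ) ≤ ((j.1 : ℕ) : ℤ) := by positivity
    have h5 : (0 : ℤ) ≤ ((j.2.1 : ℕ) : ℤ) := by positivity
    push_cast at h1
    have h6 := Int.le_of_dvd (by nlinarith) h1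
    nlinarith
  · intro j
    simp only
    exact (hh _ _).symm

theorem main : S_EQ → S_B1 := by
  intro hE n σ K hK
  have hsub : (Fx σ).filter (fun β => ∃ x y, ¬ σ.SameCycle x y ∧ 4 * K ^ 2 ≤ (cy σ x).card ∧
      4 * K ^ 2 ≤ (cy σ y).card ∧ y ∈ ob β x) ⊆
      ((Finset.univ : Finset (Fin n × (Fin K → Fin n) × (Fin K → Fin n))).filter (Val σ K)).biUnion
        (fun D => (Fx σ).filter (fun β => ∀ j : JJ σ K D,
          β.Adj ((σ ^ (((j.1 : ℕ) + 1) * K)) D.1) ((σ ^ (j.2.1 : ℕ)) D.1) ↔ β.Adj (D.2.2 j.1) (D.2.1 j.2.1))) := by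
    intro β hβ
    rw [Finset.mem_filter] at hβ
    obtain ⟨D, hD, hj⟩ := bad σ K hK β hβ.1 hβ.2
    rw [Finset.mem_biUnion]
    refine ⟨D, ?_, ?_⟩
    · rw [Finset.mem_filter]
      exact ⟨Finset.mem_univ _, hD⟩
    · rw [Finset.mem_filter]
      exact ⟨hβ.1, hj⟩
  have h1 := (Finset.card_le_card hsub).trans Finset.card_biUnion_le
  calc _ ≤ (∑ D ∈ (Finset.univ : Finset (Fin n × (Fin K → Fin n) × (Fin K → Fin n))).filter (Val σ K),
        ((Fx σ).filter (fun β => ∀ j : JJ σ K D,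
          β.Adj ((σ ^ (((j.1 : ℕ) + 1) * K)) D.1) ((σ ^ (j.2.1 : ℕ)) D.1) ↔
            β.Adj (D.2.2 j.1) (D.2.1 j.2.1))).card) * 2 ^ (K * K / 8) := Nat.mul_le_mul_right _ h1
    _ ≤ ∑ D ∈ (Finset.univ : Finset (Fin n × (Fin K → Fin n) × (Fin K → Fin n))).filter (Val σ K),
        (Fx σ).card := by
      rw [Finset.sum_mul]
      refine Finset.sum_le_sum fun D hD => ?_
      rw [Finset.mem_filter] at hD
      exact key hE σ K hK D hD.2
    _ = ((Finset.univ : Finset (Fin n × (Fin K → Fin n) × (Fin K → Fin n))).filter (Val σ K)).card *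
        (Fx σ).card := by rw [Finset.sum_const, smul_eq_mul]
    _ ≤ n ^ (1 + 2 * K) * (Fx σ).card := by
      apply Nat.mul_le_mul_right
      refine (Finset.card_filter_le _ _).trans (le_of_eq ?_)
      rw [Finset.card_univ, Fintype.card_prod, Fintype.card_prod, Fintype.card_fun, Fintype.card_fin,
        Fintype.card_fin, pow_add, pow_one, two_mul, pow_add]

end Pool.Agent.W247.BP

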